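import Pool.Agent.N594.NT.Stm

/-!
# NT/P: averages over random maps with fixed vertices (project of helper594, written by helper498)
-/

set_option autoImplicit false

open Finset
open scoped Classical

namespace Pool.Agent.N498.NT.P

open Pool.Agent.TH200.LP Pool.Agent.N594.NT

/-- an enumeration -/
lemma exists_enum {ι : Type} (J : Finset ι) {d : ℕ} (hJ : J.card = d) :
    ∃ τ : Fin d → ι, Function.Injective τ ∧ ∀ i, i ∈ J ↔ ∃ a, τ a = i := by
  let e := J.equivFinOfCardEq hJ
  refine ⟨fun a => (e.symm a : ι), Subtype.val_injective.comp e.symm.injective, fun i => ?_⟩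
  constructor
  · intro hi
    exact ⟨e ⟨i, hi⟩, congrArg Subtype.val (e.symm_apply_apply ⟨i, hi⟩)⟩
  · rintro ⟨a, rfl⟩
    exact (e.symm a).2

/-- the average of the indicator of a non-edge with two fixed vertices -/
lemma av_two (d : ℕ) (V : Type) [Fintype V] [Nonempty V] (H : Finset V → Prop) (x y : V) :
    (av fun z : Fin d → V => ind (¬ H (insert x (insert y (univ.image z))))) =
      1 - cdg d H x y := by
  simp only [ind_not]
  rw [av_sub, av_const]
  rfl

theorem main2 : S_P2 := by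
  intro d V _ _ H ι _ J x y hJ
  obtain ⟨τ, hτ, hmem⟩ := exists_enum J hJ
  have hω : ∀ ω : ι → V, J.image ω = univ.image (fun a => ω (τ a)) := by
    intro ω
    ext v
    simp only [mem_image, mem_univ, true_and]
    constructor
    · rintro ⟨i, hi, rfl⟩
      obtain ⟨a, rfl⟩ := (hmem i).1 hi
      exact ⟨a, rfl⟩
    · rintro ⟨a, rfl⟩
      exact ⟨τ a, (hmem _).2 ⟨a, rfl⟩, rfl⟩
  simp only [hω]
  rw [av_pull τ hτ (fun z : Fin d → V => ind (¬ H (insert x (insert y (univ.image z)))))]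
  exact av_two d V H x y

theorem main1 : S_P1 := by
  intro d V _ _ H ι _ J j x F hj hJ
  obtain ⟨τ, hτ, hmem⟩ := exists_enum (J.erase j) (d := d) (by rw [card_erase_of_mem hj, hJ]; rfl)
  have hω : ∀ ω : ι → V, J.image ω = insert (ω j) (univ.image (fun a => ω (τ a))) := by
    intro ω
    ext v
    simp only [mem_image, mem_insert, mem_univ, true_and]
    constructor
    · rintro ⟨i, hi, rfl⟩
      by_cases hij : i = j
      · left; rw [hij]
      · right
        obtain ⟨a, rfl⟩ := (hmem i).1 (mem_erase.2 ⟨hij, hi⟩)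
        exact ⟨a, rfl⟩
    · rintro (rfl | ⟨a, rfl⟩)
      · exact ⟨j, hj, rfl⟩
      · exact ⟨τ a, (mem_erase.1 ((hmem _).2 ⟨a, rfl⟩)).2, rfl⟩
  have hτ' : Function.Injective (Fin.cons j τ : Fin (d + 1) → ι) := by
    rw [Fin.cons_injective_iff]
    refine ⟨?_, hτ⟩
    rintro ⟨a, ha⟩
    have h1 := (hmem (τ a)).2 ⟨a, rfl⟩
    rw [ha] at h1
    exact (mem_erase.1 h1).1 rfl
  have h1 := av_pull (V := V) (Fin.cons j τ : Fin (d + 1) → ι) hτ' (fun z : Fin (d + 1) → V =>
    F (z 0) * ind (¬ H (insert x (insert (z 0) (univ.image (fun a : Fin d => z a.succ))))))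
  simp only [Fin.cons_zero, Fin.cons_succ] at h1
  simp only [hω]
  rw [h1, av_cons]
  simp only [Fin.cons_zero, Fin.cons_succ]
  congr 1
  funext y
  rw [av_mul_left, ← av_two d V H x y]

theorem main0 : S_P0 := by
  intro d V _ _ H ι _ J i j F hi hj hij hJ
  have hj' : j ∈ J.erase i := mem_erase.2 ⟨hij.symm, hj⟩
  obtain ⟨τ, hτ, hmem⟩ := exists_enum ((J.erase i).erase j) (d := d)
    (by rw [card_erase_of_mem hj', card_erase_of_mem hi, hJ]; rfl)
  have hω : ∀ ω : ι → V, J.image ω =
      insert (ω i) (insert (ω j) (univ.image (fun a => ω (τ a)))) := by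
    intro ω
    ext v
    simp only [mem_image, mem_insert, mem_univ, true_and]
    constructor
    · rintro ⟨l, hl, rfl⟩
      by_cases hli : l = i
      · left; rw [hli]
      · by_cases hlj : l = j
        · right; left; rw [hlj]
        · right; right
          obtain ⟨a, rfl⟩ := (hmem l).1 (mem_erase.2 ⟨hlj, mem_erase.2 ⟨hli, hl⟩⟩)
          exact ⟨a, rfl⟩
    · rintro (rfl | rfl | ⟨a, rfl⟩)
      · exact ⟨i, hi, rfl⟩
      · exact ⟨j, hj, rfl⟩
      · exact ⟨τ a, (mem_erase.1 (mem_erase.1 ((hmem _).2 ⟨a, rfl⟩)).2).2, rfl⟩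
  have hτ1 : Function.Injective (Fin.cons j τ : Fin (d + 1) → ι) := by
    rw [Fin.cons_injective_iff]
    refine ⟨?_, hτ⟩
    rintro ⟨a, ha⟩
    have h1 := (hmem (τ a)).2 ⟨a, rfl⟩
    rw [ha] at h1
    exact (mem_erase.1 h1).1 rfl
  have hτ2 : Function.Injective (Fin.cons i (Fin.cons j τ) : Fin (d + 2) → ι) := by
    rw [Fin.cons_injective_iff]
    refine ⟨?_, hτ1⟩
    rintro ⟨a, ha⟩
    revert ha
    refine Fin.cases ?_ (fun a => ?_) a
    · intro ha
      rw [Fin.cons_zero] at ha
      exact hij ha.symm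
    · intro ha
      rw [Fin.cons_succ] at ha
      have h1 := (hmem (τ a)).2 ⟨a, rfl⟩
      rw [ha] at h1
      exact (mem_erase.1 (mem_erase.1 h1).2).1 rfl
  have h1 := av_pull (V := V) (Fin.cons i (Fin.cons j τ) : Fin (d + 2) → ι) hτ2
    (fun z : Fin (d + 2) → V => F (z 0) (z (Fin.succ 0)) *
      ind (¬ H (insert (z 0) (insert (z (Fin.succ 0)) (univ.image (fun a : Fin d => z a.succ.succ))))))
  simp only [Fin.cons_zero, Fin.cons_succ] at h1
  simp only [hω]
  rw [h1, av_cons]
  congr 1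
  funext x
  rw [av_cons]
  simp only [Fin.cons_zero, Fin.cons_succ]
  congr 1
  funext y
  rw [av_mul_left, ← av_two d V H x y]

end Pool.Agent.N498.NT.P
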